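import Mathlib
import Pool.Agent.RK.Main

/-!
The list-distinguishing number of the rook's graph `K_n □ K_m` equals its distinguishing number,
for all positive integers `n` and `m`.
-/

namespace Pool.Agent.Results.MP_0d630e_co.ListDistinguishingRook

open SimpleGraph

/-- The colouring `c` of the vertices of `G` is distinguishing: the identity is the only
automorphism `φ` of `G` with `c (φ v) = c v` for all vertices `v`. -/
def IsDistinguishing {V α : Type} (G : SimpleGraph V) (c : V → α) : Prop :=
  ∀ φ : G ≃g G, (∀ v, c (φ v) = c v) → ∀ v, φ v = v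

/-- `D` is the distinguishing number of `G`: the least `k` such that `G` has a distinguishing
colouring with (at most) `k` colours. -/
def IsDistinguishingNumber {V : Type} (G : SimpleGraph V) (D : ℕ) : Prop :=
  IsLeast {k : ℕ | ∃ c : V → Fin k, IsDistinguishing G c} D

/-- `D` is the list-distinguishing number of `G`: the least `k` such that for every set `α` of
colours and every assignment `L` of `k`-element subsets of `α` to the vertices, there is a
distinguishing colouring `c` with `c v ∈ L v` for all vertices `v`. -/
def IsListDistinguishingNumber {V : Type} (G : SimpleGraph V) (D : ℕ) : Prop :=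
  IsLeast {k : ℕ | ∀ (α : Type) (L : V → Finset α), (∀ v, (L v).card = k) →
    ∃ c : V → α, (∀ v, c v ∈ L v) ∧ IsDistinguishing G c} D

theorem list_iff {V : Type} [Finite V] (G : SimpleGraph V) (k : ℕ) :
    (∀ (α : Type) (L : V → Finset α), (∀ v, (L v).card = k) →
      ∃ c : V → α, (∀ v, c v ∈ L v) ∧ IsDistinguishing G c) ↔ RK.HasListDist G k := by
  classical
  constructor
  · intro h L hL
    exact h ℕ L hL
  · intro h α L hL
    have := Fintype.ofFinite V
    set U : Finset α := Finset.univ.biUnion L with hU
    have hLU : ∀ v, ∀ a ∈ L v, a ∈ U := by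
      intro v a ha
      rw [hU, Finset.mem_biUnion]
      exact ⟨v, Finset.mem_univ v, ha⟩
    let f : α → ℕ := fun a => if h : a ∈ U then (U.equivFin ⟨a, h⟩ : ℕ) else 0
    have hf : Set.InjOn f (U : Set α) := by
      intro a ha b hb hab
      have ha' : a ∈ U := ha
      have hb' : b ∈ U := hb
      simp only [f] at hab
      rw [dif_pos ha', dif_pos hb'] at hab
      have h1 := U.equivFin.injective (Fin.ext hab)
      exact congrArg Subtype.val h1
    obtain ⟨c', hc1, hc2⟩ := h (fun v => (L v).image f) (fun v => by
      rw [Finset.card_image_of_injOn (hf.mono fun a ha => hLU v a ha), hL])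
    have hc3 : ∀ v, ∃ a ∈ L v, f a = c' v := by
      intro v
      have := hc1 v
      simpa [Finset.mem_image] using this
    choose c hc4 hc5 using hc3
    refine ⟨c, hc4, fun φ hφ => hc2 φ fun v => ?_⟩
    rw [← hc5, ← hc5, hφ]

theorem nonempty_dist {V : Type} [Finite V] (G : SimpleGraph V) :
    ∃ k, RK.HasDist G k := by
  obtain ⟨k, ⟨e⟩⟩ := Finite.exists_equiv_fin V
  exact ⟨k, e, fun φ hφ v => e.injective (hφ v)⟩

/-- For all positive integers `n` and `m` the rook's graph `K_n □ K_m` has the same
distinguishing number and list-distinguishing number. -/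
theorem result (n m : ℕ) (hn : 1 ≤ n) (hm : 1 ≤ m) :
    ∃ D : ℕ, IsDistinguishingNumber ((⊤ : SimpleGraph (Fin n)) □ (⊤ : SimpleGraph (Fin m))) D ∧
      IsListDistinguishingNumber ((⊤ : SimpleGraph (Fin n)) □ (⊤ : SimpleGraph (Fin m))) D := by
  classical
  have hex := nonempty_dist ((⊤ : SimpleGraph (Fin n)) □ (⊤ : SimpleGraph (Fin m)))
  refine ⟨Nat.find hex, ⟨?_, ?_⟩, ?_, ?_⟩
  · exact Nat.find_spec hex
  · intro k hk
    exact Nat.find_min' hex hk
  · have := (RK.main_iff hn hm _).2 (Nat.find_spec hex)
    exact (list_iff _ _).2 this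
  · intro k hk
    exact Nat.find_min' hex ((RK.main_iff hn hm _).1 ((list_iff _ _).1 hk))

end Pool.Agent.Results.MP_0d630e_co.ListDistinguishingRook
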